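import Pool.Agent.Helper57.KE.St

/-!
# Project KE (MP_45ac3c_an): growth of the sums
-/

set_option autoImplicit false

open scoped BigOperators
open Finset

namespace Pool.Agent.Helper48.KE

open Pool.Agent.Helper57.KE

private theorem pp_bd {c : ℝ} (hc : 1 < c) : 0 < pp c ∧ pp c < 1 := by
  have h1 : 0 < 1 / c ^ 2 := by positivity
  have h2 : 1 / c ^ 2 < 1 := by
    rw [div_lt_one (by positivity)]
    nlinarith
  have h3 : 0 < ss c := Real.sqrt_pos.2 (by linarith)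
  have h4 : ss c < 1 := by
    unfold ss
    rw [Real.sqrt_lt' one_pos]
    linarith
  unfold pp
  constructor
  · exact div_pos (by linarith) (by linarith)
  · rw [div_lt_one (by linarith)]
    linarith

private theorem sm {σ w : ℝ} (hσ : 0 < σ) :
    Summable (fun i : ℕ => ((i : ℝ) + 1) ^ 2 * ((2 * (σ * ((i : ℝ) + 1)) + w) *
      Real.exp (-(2 * (σ * ((i : ℝ) + 1)))))) := by
  have hr : ‖Real.exp (-(2 * σ))‖ < 1 := by
    rw [Real.norm_eq_abs, abs_of_pos (Real.exp_pos _)]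
    exact Real.exp_lt_one_iff.2 (by linarith)
  have g : ∀ k : ℕ, Summable (fun i : ℕ => (((i + 1 : ℕ) : ℝ)) ^ k *
      Real.exp (-(2 * σ)) ^ (i + 1)) := by
    intro k
    exact (summable_nat_add_iff (f := fun i : ℕ => ((i : ℝ)) ^ k *
      Real.exp (-(2 * σ)) ^ i) 1).2 (summable_pow_mul_geometric_of_norm_lt_one k hr)
  have h4 : Summable (fun i : ℕ => (2 * σ) * ((((i + 1 : ℕ) : ℝ)) ^ 3 *
      Real.exp (-(2 * σ)) ^ (i + 1)) + w * ((((i + 1 : ℕ) : ℝ)) ^ 2 *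
      Real.exp (-(2 * σ)) ^ (i + 1))) := ((g 3).mul_left (2 * σ)).add ((g 2).mul_left w)
  have h5 : (fun i : ℕ => ((i : ℝ) + 1) ^ 2 * ((2 * (σ * ((i : ℝ) + 1)) + w) *
      Real.exp (-(2 * (σ * ((i : ℝ) + 1)))))) = fun i : ℕ => (2 * σ) *
      ((((i + 1 : ℕ) : ℝ)) ^ 3 * Real.exp (-(2 * σ)) ^ (i + 1)) +
      w * ((((i + 1 : ℕ) : ℝ)) ^ 2 * Real.exp (-(2 * σ)) ^ (i + 1)) := by
    funext i
    have e : Real.exp (-(2 * (σ * ((i : ℝ) + 1)))) = Real.exp (-(2 * σ)) ^ (i + 1) := by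
      rw [← Real.exp_nat_mul]
      congr 1
      push_cast
      ring
    rw [e]
    generalize Real.exp (-(2 * σ)) ^ (i + 1) = x
    push_cast
    ring
  rw [h5]
  exact h4

private theorem lim {p σ : ℝ} (hp : p < 1) (hσ : 0 < σ) (n : ℕ) :
    ∃ k : ℕ, n ≤ k + 1 ∧ (((k + 1 : ℕ) : ℝ) + 1) ^ 2 * gg p σ k ^ 2 ≤ 1 := by
  have hr1 : Real.exp (-(2 * σ)) < 1 := Real.exp_lt_one_iff.2 (by linarith)
  have ht := tendsto_pow_const_mul_const_pow_of_lt_one 4 (Real.exp_pos (-(2 * σ))).le hr1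
  have hev := ht.eventually (gt_mem_nhds (show (0 : ℝ) < 1 / 4 by norm_num))
  obtain ⟨m, h1, h2⟩ := (hev.and (Filter.eventually_ge_atTop (n + 1))).exists
  obtain ⟨k, rfl⟩ : ∃ k, m = k + 1 := ⟨m - 1, by omega⟩
  refine ⟨k, by omega, ?_⟩
  unfold gg
  have hk : (0 : ℝ) ≤ k := Nat.cast_nonneg k
  have e1 : Real.exp (-(σ * ((k : ℝ) + 1))) ^ 2 = Real.exp (-(2 * σ)) ^ (k + 1) := by
    rw [← Real.exp_nat_mul, ← Real.exp_nat_mul]
    congr 1
    push_cast
    ring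
  have e2 : ((k : ℝ) + 1) ^ p ≤ (k : ℝ) + 1 := by
    calc ((k : ℝ) + 1) ^ p ≤ ((k : ℝ) + 1) ^ (1 : ℝ) :=
          Real.rpow_le_rpow_of_exponent_le (by linarith) hp.le
      _ = _ := Real.rpow_one _
  have e3 : (((k : ℝ) + 1) ^ p) ^ 2 ≤ ((k : ℝ) + 1) ^ 2 :=
    pow_le_pow_left₀ (by positivity) e2 2
  rw [mul_pow, e1]
  push_cast at h1 ⊢
  have h4 : ((k : ℝ) + 1 + 1) ^ 2 ≤ 4 * ((k : ℝ) + 1) ^ 2 := by nlinarith
  have hE : 0 ≤ Real.exp (-(2 * σ)) ^ (k + 1) := by positivity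
  calc ((k : ℝ) + 1 + 1) ^ 2 * ((((k : ℝ) + 1) ^ p) ^ 2 * Real.exp (-(2 * σ)) ^ (k + 1))
      ≤ (4 * ((k : ℝ) + 1) ^ 2) * (((k : ℝ) + 1) ^ 2 * Real.exp (-(2 * σ)) ^ (k + 1)) :=
        mul_le_mul h4 (mul_le_mul_of_nonneg_right e3 hE) (by positivity) (by positivity)
    _ = 4 * (((k : ℝ) + 1) ^ 4 * Real.exp (-(2 * σ)) ^ (k + 1)) := by ring
    _ ≤ 1 := by linarith

private theorem mono_ps (hDER : StDER) {v : ℕ → ℝ} {p ω ω' D σ0 σ1 : ℝ} {m : ℕ} (hω : 0 < ω)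
    (h1 : 0 < σ1) (h10 : σ1 ≤ σ0) (hD : 0 ≤ D)
    (h : ∀ σ, σ1 ≤ σ → σ ≤ σ0 → -(σ ^ (ω - 1) * D) ≤ dPsi v p ω ω' m σ) :
    Psi v p ω ω' m σ1 ≤ Psi v p ω ω' m σ0 + D * (σ0 ^ ω / ω) := by
  have hd : ∀ σ, 0 < σ → HasDerivAt (fun σ => Psi v p ω ω' m σ + D * (σ ^ ω / ω))
      (dPsi v p ω ω' m σ + D * σ ^ (ω - 1)) σ := by
    intro σ hσ
    have e1 := hDER v p ω ω' m σ hσ
    have e2 : HasDerivAt (fun σ : ℝ => σ ^ ω) (ω * σ ^ (ω - 1)) σ :=
      Real.hasDerivAt_rpow_const (Or.inl hσ.ne')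
    have e3 := (e2.div_const ω).const_mul D
    have e5 : D * (ω * σ ^ (ω - 1) / ω) = D * σ ^ (ω - 1) := by
      field_simp
    rw [e5] at e3
    exact e1.add e3
  have hm : MonotoneOn (fun σ => Psi v p ω ω' m σ + D * (σ ^ ω / ω)) (Set.Icc σ1 σ0) := by
    apply monotoneOn_of_deriv_nonneg (convex_Icc _ _)
    · intro σ hσ
      exact (hd σ (lt_of_lt_of_le h1 hσ.1)).continuousAt.continuousWithinAt
    · intro σ hσ
      rw [interior_Icc] at hσ
      exact (hd σ (lt_trans h1 hσ.1)).differentiableAt.differentiableWithinAt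
    · intro σ hσ
      rw [interior_Icc] at hσ
      rw [(hd σ (lt_trans h1 hσ.1)).deriv]
      have := h σ hσ.1.le hσ.2.le
      linarith
  have h3 := hm (Set.left_mem_Icc.2 h10) (Set.right_mem_Icc.2 h10) h10
  have h4 : 0 ≤ D * (σ1 ^ ω / ω) := by positivity
  simp only at h3
  linarith

theorem hGRO : StGRO := by
  intro hDER c hc η hη hLB
  obtain ⟨σ0, B, k0, hσ0, hB, hL⟩ := hLB
  obtain ⟨hp0, hp1⟩ := pp_bd hc
  generalize pp c = p at *
  set ω := p + η with hω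
  set w := 1 - p + η / 2 with hw
  have hω0 : 0 < ω := by rw [hω]; linarith
  have hw0 : 0 < w := by rw [hw]; linarith
  set a : ℕ → ℝ := fun i => ((i : ℝ) + 1) ^ 2 * ((2 * (σ0 * ((i : ℝ) + 1)) + w) *
    Real.exp (-(2 * (σ0 * ((i : ℝ) + 1))))) with ha
  have hsum : Summable a := sm hσ0
  have ha0 : ∀ i, 0 ≤ a i := fun i => by
    rw [ha]
    positivity
  set S0 := ∑ i ∈ range k0, ((i : ℝ) + 1) ^ 2 with hS0
  have hS00 : 0 ≤ S0 := Finset.sum_nonneg fun i _ => by positivity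
  have hT0 : 0 ≤ ∑' i, a i := tsum_nonneg ha0
  set K2 := σ0 ^ ω * (∑' i, a i) + B * (S0 + 1) * (σ0 ^ ω / ω) with hK2
  have hK20 : 0 ≤ K2 := by positivity
  set Q := σ0 ^ ω * (w * Real.exp (-(2 * σ0))) with hQ
  have hQ0 : 0 < Q := by positivity
  refine ⟨K2 / Q, by positivity, ?_⟩
  intro v hv A hA n hn
  have hA0 : 0 ≤ A := by
    have h1 := hA 0
    have h2 := hv.1 0
    simp at h1
    linarith
  have hn0 : (0 : ℝ) < n := by exact_mod_cast hn
  have hσ1 : 0 < σ0 / n := by positivity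
  have hσ10 : σ0 / n ≤ σ0 := div_le_self hσ0.le (by exact_mod_cast hn)
  obtain ⟨k, hk, hkb⟩ := lim hp1 hσ1 n
  have hD : ∀ σ, σ0 / n ≤ σ → σ ≤ σ0 →
      -(σ ^ (ω - 1) * (B * (A * (S0 + 1)))) ≤ dPsi v p ω w (k + 1) σ := by
    intro σ h1 h2
    have hσ : 0 < σ := lt_of_lt_of_le hσ1 h1
    have h3 := hL v hv (k + 1) σ hσ h2
    have h4 : ∑ i ∈ range k0, v i ≤ A * S0 := by
      rw [hS0, Finset.mul_sum]
      exact Finset.sum_le_sum fun i _ => hA i
    have h5 : v (k + 1) * (sh (gg p σ) (k + 1)) ^ 2 ≤ A := by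
      have e1 : sh (gg p σ) (k + 1) = gg p σ k := by
        unfold sh
        simp
      rw [e1]
      have e2 : gg p σ k ≤ gg p (σ0 / n) k := by
        unfold gg
        apply mul_le_mul_of_nonneg_left _ (by positivity)
        apply Real.exp_le_exp.2
        have : 0 ≤ (k : ℝ) + 1 := by positivity
        nlinarith
      have e3 : 0 ≤ gg p σ k := by
        unfold gg
        positivity
      have e4 : gg p σ k ^ 2 ≤ gg p (σ0 / n) k ^ 2 := pow_le_pow_left₀ e3 e2 2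
      calc v (k + 1) * gg p σ k ^ 2
          ≤ (A * (((k + 1 : ℕ) : ℝ) + 1) ^ 2) * gg p (σ0 / n) k ^ 2 :=
            mul_le_mul (hA (k + 1)) e4 (by positivity) (by positivity)
        _ = A * ((((k + 1 : ℕ) : ℝ) + 1) ^ 2 * gg p (σ0 / n) k ^ 2) := by ring
        _ ≤ A * 1 := mul_le_mul_of_nonneg_left hkb hA0
        _ = A := mul_one A
    have h6 : σ ^ (ω - 1) * (B * (∑ i ∈ range k0, v i
        + v (k + 1) * (sh (gg p σ) (k + 1)) ^ 2)) ≤ σ ^ (ω - 1) * (B * (A * (S0 + 1))) := by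
      apply mul_le_mul_of_nonneg_left _ (by positivity)
      apply mul_le_mul_of_nonneg_left _ hB
      linarith
    linarith
  have hM := mono_ps hDER hω0 hσ1 hσ10 (by positivity) hD
  have hU : Psi v p ω w (k + 1) σ0 ≤ σ0 ^ ω * (A * ∑' i, a i) := by
    unfold Psi
    apply mul_le_mul_of_nonneg_left _ (by positivity)
    calc _ ≤ ∑ i ∈ range (k + 1), A * a i := by
          refine Finset.sum_le_sum fun i _ => ?_
          have e1 : ((i : ℝ) + 1) ^ (2 * p - 2) ≤ 1 :=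
            Real.rpow_le_one_of_one_le_of_nonpos (by
              have : (0 : ℝ) ≤ i := Nat.cast_nonneg i
              linarith) (by linarith)
          have e0 : 0 ≤ ((i : ℝ) + 1) ^ (2 * p - 2) := by positivity
          have e2 : v i * ((i : ℝ) + 1) ^ (2 * p - 2) ≤ A * ((i : ℝ) + 1) ^ 2 * 1 :=
            mul_le_mul (hA i) e1 e0 (by positivity)
          have e3 : 0 ≤ (2 * (σ0 * ((i : ℝ) + 1)) + w) *
            Real.exp (-(2 * (σ0 * ((i : ℝ) + 1)))) := by positivity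
          have e4 := mul_le_mul_of_nonneg_right e2 e3
          calc _ = v i * ((i : ℝ) + 1) ^ (2 * p - 2) * ((2 * (σ0 * ((i : ℝ) + 1)) + w) *
                Real.exp (-(2 * (σ0 * ((i : ℝ) + 1))))) := by ring
            _ ≤ _ := e4
            _ = A * a i := by
              rw [ha]
              ring
      _ = A * ∑ i ∈ range (k + 1), a i := by rw [Finset.mul_sum]
      _ ≤ A * ∑' i, a i :=
        mul_le_mul_of_nonneg_left (hsum.sum_le_tsum _ (fun i _ => ha0 i)) hA0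
  have hLo : (σ0 / n) ^ ω * ((w * Real.exp (-(2 * σ0)) * (n : ℝ) ^ (2 * p - 2)) *
      ∑ i ∈ range n, v i) ≤ Psi v p ω w (k + 1) (σ0 / n) := by
    unfold Psi
    apply mul_le_mul_of_nonneg_left _ (by positivity)
    rw [Finset.mul_sum]
    calc ∑ i ∈ range n, (w * Real.exp (-(2 * σ0)) * (n : ℝ) ^ (2 * p - 2)) * v i
        ≤ ∑ i ∈ range n, v i * (((i : ℝ) + 1) ^ (2 * p - 2) *
            (2 * (σ0 / n * ((i : ℝ) + 1)) + w) *
            Real.exp (-(2 * (σ0 / n * ((i : ℝ) + 1))))) := by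
          refine Finset.sum_le_sum fun i hi => ?_
          have hi' : (i : ℝ) + 1 ≤ n := by
            have := Finset.mem_range.1 hi
            exact_mod_cast this
          have e1 : (n : ℝ) ^ (2 * p - 2) ≤ ((i : ℝ) + 1) ^ (2 * p - 2) :=
            Real.rpow_le_rpow_of_nonpos (by positivity) hi' (by linarith)
          have e2 : σ0 / n * ((i : ℝ) + 1) ≤ σ0 := by
            rw [div_mul_eq_mul_div, div_le_iff₀ hn0]
            exact mul_le_mul_of_nonneg_left hi' hσ0.le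
          have e3 : Real.exp (-(2 * σ0)) ≤ Real.exp (-(2 * (σ0 / n * ((i : ℝ) + 1)))) :=
            Real.exp_le_exp.2 (by linarith)
          have e4 : w ≤ 2 * (σ0 / n * ((i : ℝ) + 1)) + w := by
            have : 0 ≤ σ0 / n * ((i : ℝ) + 1) := by positivity
            linarith
          have e5 : (n : ℝ) ^ (2 * p - 2) * w * Real.exp (-(2 * σ0))
              ≤ ((i : ℝ) + 1) ^ (2 * p - 2) * (2 * (σ0 / n * ((i : ℝ) + 1)) + w) *
                Real.exp (-(2 * (σ0 / n * ((i : ℝ) + 1)))) :=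
            mul_le_mul (mul_le_mul e1 e4 hw0.le (by positivity)) e3 (by positivity)
              (by positivity)
          have e6 := mul_le_mul_of_nonneg_left e5 (hv.1 i)
          calc _ = v i * ((n : ℝ) ^ (2 * p - 2) * w * Real.exp (-(2 * σ0))) := by ring
            _ ≤ _ := e6
      _ ≤ _ := Finset.sum_le_sum_of_subset_of_nonneg (Finset.range_subset_range.2 hk)
          (fun i _ _ => mul_nonneg (hv.1 i) (by positivity))
  have hF : Q * ((n : ℝ) ^ (2 - p + η))⁻¹ * ∑ i ∈ range n, v i ≤ A * K2 := by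
    have e1 : (σ0 / n) ^ ω = σ0 ^ ω * ((n : ℝ) ^ ω)⁻¹ := by
      rw [Real.div_rpow hσ0.le hn0.le, div_eq_mul_inv]
    have e2 : ((n : ℝ) ^ ω)⁻¹ * (n : ℝ) ^ (2 * p - 2) = ((n : ℝ) ^ (2 - p + η))⁻¹ := by
      rw [← Real.rpow_neg hn0.le, ← Real.rpow_neg hn0.le, ← Real.rpow_add hn0]
      congr 1
      rw [hω]
      ring
    calc Q * ((n : ℝ) ^ (2 - p + η))⁻¹ * ∑ i ∈ range n, v i
        = (σ0 / n) ^ ω * ((w * Real.exp (-(2 * σ0)) * (n : ℝ) ^ (2 * p - 2)) *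
          ∑ i ∈ range n, v i) := by
          rw [e1, ← e2, hQ]
          ring
      _ ≤ _ := hLo
      _ ≤ _ := hM
      _ ≤ σ0 ^ ω * (A * ∑' i, a i) + B * (A * (S0 + 1)) * (σ0 ^ ω / ω) := by linarith
      _ = A * K2 := by
        rw [hK2]
        ring
  have hR : 0 < (n : ℝ) ^ (2 - p + η) := by positivity
  rw [div_mul_eq_mul_div, div_mul_eq_mul_div, le_div_iff₀ hQ0]
  have h9 := mul_le_mul_of_nonneg_right hF hR.le
  calc (∑ i ∈ range n, v i) * Q
      = Q * ((n : ℝ) ^ (2 - p + η))⁻¹ * (∑ i ∈ range n, v i) * (n : ℝ) ^ (2 - p + η) := by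
        field_simp
    _ ≤ _ := h9
    _ = K2 * A * (n : ℝ) ^ (2 - p + η) := by ring

end Pool.Agent.Helper48.KE
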